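import Mathlib
import Pool.Agent.H194R3.Tate.PairMain
import Pool.Agent.H194R3.Weil.Core

/-!
# The relations between the slopes of a Weil number over a pair-transitive real field
-/

set_option autoImplicit false
set_option linter.unusedSectionVars false
set_option linter.unusedVariables false

namespace Pool.Agent.H194R3.Weil

open NumberField Module Pool.Agent.H925R2 Pool.Agent.H485R3 Pool.Agent.H204R3.CM
  Pool.Agent.H868R3.TwoOdd Pool.Agent.H194R3.CM Pool.Agent.H194R3.Tate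

variable (p : ℕ) [Fact p.Prime] {F : Type*} [Field F] [NumberField F] [IsCMField F]
  {L : Type*} [Field L] [NumberField L] [IsGalois ℚ L]

/-- All relations between the translates of the vector of slopes. -/
theorem block_structure (j : L →+* ℂ) (h : ∀ ψ : F →+* ℂ, ∃ φ : F →+* L, j.comp φ = ψ)
    (e : L →ₐ[ℚ] PadicAlgCl p) (m : ℕ) (π : F) (hint : IsIntegral ℤ π)
    (hgen : ∀ s : ℕ, 0 < s → IntermediateField.adjoin ℚ {π ^ s} = ⊤)
    (hweil : ∀ φ : F →+* ℂ, ‖φ π‖ ^ 2 = (((p : ℚ) ^ m : ℚ) : ℝ))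
    (hpair : PairTransitive (maximalRealSubfield F))
    (hdeg : Odd (finrank ℚ (maximalRealSubfield F)) ∨
      (finrank ℚ (maximalRealSubfield F) - 1).Prime ∨
        TripleTransitive (maximalRealSubfield F))
    (c : (F →+* L) → ℤ) (hc : ∀ φ, c (cbar φ) = -c φ)
    (hrel : ∀ g : L ≃ₐ[ℚ] L, ∑ φ : F →+* L, (c φ : ℝ) *
      dev p ((p : ℚ) ^ m) (e ((g • φ) π)) = 0) :
    ∃ (v : (F →+* L) → ℤ) (l : ℤ), (∀ x, v x = 1 ∨ v x = -1) ∧ (∀ x, v (cbar x) = -v x) ∧
      (∀ x, c x = l * v x) ∧ (l ≠ 0 → WeilSlopes p π m ∧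
        (∀ (g : L ≃ₐ[ℚ] L) (x y : F →+* L), v (g • x) * v (g • y) = v x * v y) ∧
        ∀ g : L ≃ₐ[ℚ] L, ∑ φ : F →+* L, (v φ : ℝ) *
          dev p ((p : ℚ) ^ m) (e ((g • φ) π)) = 0) := by
  classical
  have hp : p.Prime := Fact.out
  have hq : (0 : ℚ) < (p : ℚ) ^ m := pow_pos (by exact_mod_cast hp.pos) _
  let G := L ≃ₐ[ℚ] L
  obtain ⟨φ₀⟩ : Nonempty (F →+* L) := by
    obtain ⟨ψ⟩ := (inferInstance : Nonempty (F →+* ℂ))
    obtain ⟨φ, _⟩ := h ψ
    exact ⟨φ⟩
  have hsl : ∀ φ : F →+* L, dev p ((p : ℚ) ^ m) (e ((cbar φ) π)) =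
      -dev p ((p : ℚ) ^ m) (e (φ π)) := by
    intro φ
    have h1 := dev_inv p hq.ne' (((e : L →+* PadicAlgCl p).comp φ) π)
      ((map_ne_zero _).2 (weil_ne hq hweil))
    rw [← weil_cbar hq hweil] at h1
    exact h1
  obtain ⟨κ, U, hκ, hU⟩ := exists_int_dev p (f := minpoly ℚ π)
    (minpoly.ne_zero (Algebra.IsIntegral.isIntegral _)) (by
      rintro α hα rfl
      have h1 : (minpoly ℚ π).coeff 0 = 0 := by
        rw [Polynomial.aeval_def, Polynomial.eval₂_at_zero] at hα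
        exact (map_eq_zero _).1 hα
      exact minpoly.coeff_zero_ne_zero (Algebra.IsIntegral.isIntegral _)
        (weil_ne hq hweil) h1) hq.ne'
  let u : (F →+* L) → ℤ := fun φ => U (e (φ π))
  have hroot : ∀ φ : F →+* L, Polynomial.aeval (e (φ π)) (minpoly ℚ π) = 0 := by
    intro φ
    have h1 := Polynomial.aeval_algHom_apply
      (e.comp (RingHom.equivRatAlgHom F L φ)) π (minpoly ℚ π)
    rw [minpoly.aeval, map_zero] at h1
    exact h1
  have hus : ∀ φ : F →+* L, dev p ((p : ℚ) ^ m) (e (φ π)) = κ * u φ :=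
    fun φ => hU _ (hroot φ)
  have hua : ∀ φ, u (cbar φ) = -u φ := by
    intro φ
    have h1 := hsl φ
    rw [hus, hus] at h1
    have h2 : κ * ((u (cbar φ) : ℝ) + u φ) = 0 := by linarith
    have h3 := (mul_eq_zero.1 h2).resolve_left hκ.ne'
    have h4 : u (cbar φ) + u φ = 0 := by exact_mod_cast h3
    omega
  have hkr := fun φ ψ => exists_slope_ne_slope p m π hint hgen hweil e φ ψ
  obtain ⟨g₀, hg₀⟩ : ∃ g : G, u (g • φ₀) ≠ 0 := by
    obtain ⟨g, hg⟩ := hkr φ₀ (cbar φ₀) (cbar_ne φ₀).symm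
    refine ⟨g, fun h0 => hg ?_⟩
    have h1 : dev p ((p : ℚ) ^ m) (e ((g • φ₀) π)) = 0 := by
      rw [hus, h0, Int.cast_zero, mul_zero]
    have h2 := hsl (g • φ₀)
    rw [h1, neg_zero] at h2
    exact h1.trans h2.symm
  have hcardi : Fintype.card (F →+* L) = 2 * finrank ℚ (maximalRealSubfield F) := by
    have h0 : finrank (maximalRealSubfield F) F = 2 :=
      Algebra.IsQuadraticExtension.finrank_eq_two _ _
    rw [card_emb j h, ← finrank_mul_finrank ℚ (maximalRealSubfield F) F,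
      h0, mul_comm]
  have hreli : ∀ g : G, ∑ φ : F →+* L, c φ * u (g • φ) = 0 := by
    intro g
    have h1 := hrel g
    have h2 : ∀ φ : F →+* L, (c φ : ℝ) *
        dev p ((p : ℚ) ^ m) (e ((g • φ) π)) = κ * ((c φ : ℝ) * u (g • φ)) := by
      intro φ
      rw [hus]
      ring
    rw [Finset.sum_congr rfl (fun φ _ => h2 φ), ← Finset.mul_sum] at h1
    have h3 := (mul_eq_zero.1 h1).resolve_left hκ.ne'
    exact_mod_cast h3
  rcases core_pair_weil (X := F →+* L) (G := G) cbar cbar_cbar cbar_ne (fun g x => rfl)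
    (finrank ℚ (maximalRealSubfield F)) finrank_pos hcardi
    (by
      rcases hdeg with h' | h' | h'
      · exact Or.inl h'
      · exact Or.inr (Or.inl h')
      · exact Or.inr (Or.inr fun x y hx hy => triple_transfer j h' x y hx hy))
    (fun x y x' y' h1 h2 h1' h2' => pair_transfer j hpair x y x' y' h1 h2 h1' h2')
    (fun x y => MulAction.exists_smul_eq G x y) u ⟨g₀ • φ₀, hg₀⟩ hua
    c hc hreli with h1 | h1 | h1
  · obtain ⟨R, hR⟩ := exists_isHalf (inv := (cbar : (F →+* L) → (F →+* L))) cbar_cbar cbar_ne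
    refine ⟨fun x => if x ∈ R then 1 else -1, 0, ?_, ?_, ?_, fun h => absurd rfl h⟩
    · intro x
      dsimp only
      split_ifs
      · exact Or.inl rfl
      · exact Or.inr rfl
    · intro x
      dsimp only
      by_cases hx : x ∈ R
      · rw [if_pos hx, if_neg ((hR x).1 hx)]
      · rw [if_neg hx, neg_neg, if_pos]
        by_contra h'
        exact hx ((hR x).2 h')
    · intro x
      rw [h1, zero_mul]
  · obtain ⟨v, hv, hvn, hvs, hvu⟩ := h1
    refine ⟨v, 0, hv, hvn, ?_, fun h => absurd rfl h⟩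
    intro φ₁
    rw [zero_mul]
    obtain ⟨g₁, hg₁⟩ : ∃ g : G, u (g • φ₁) ≠ 0 := by
      obtain ⟨g, hg⟩ := hkr φ₁ (cbar φ₁) (cbar_ne φ₁).symm
      refine ⟨g, fun h0 => hg ?_⟩
      have h1 : dev p ((p : ℚ) ^ m) (e ((g • φ₁) π)) = 0 := by
        rw [hus, h0, Int.cast_zero, mul_zero]
      have h2 := hsl (g • φ₁)
      rw [h1, neg_zero] at h2
      exact h1.trans h2.symm
    by_cases hex : ∃ φ ψ : F →+* L, φ ≠ ψ ∧ v φ = v ψ
    · exfalso
      obtain ⟨φ, ψ, hne, hvφ⟩ := hex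
      obtain ⟨g, hg⟩ := hkr φ ψ hne
      apply hg
      have h2 := hvu g φ ψ
      rw [hvφ] at h2
      have h3 : v ψ ≠ 0 := by
        rcases hv ψ with h' | h' <;> rw [h'] <;> norm_num
      have h4 := mul_right_cancel₀ h3 h2
      have h5 := hus (g • φ)
      have h6 := hus (g • ψ)
      rw [h4, ← h6] at h5
      exact h5
    · push Not at hex
      have hall : ∀ φ : F →+* L, φ ≠ φ₁ → φ = cbar φ₁ := by
        intro φ hφ
        by_contra hne
        have h2 := hex φ φ₁ hφ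
        have h3 := hex φ (cbar φ₁) hne
        rw [hvn] at h3
        rcases hv φ with e1 | e1 <;> rcases hv φ₁ with e2 | e2 <;> simp [e1, e2] at h2 h3
      have h2 := hreli g₁
      have h3 : ∑ φ : F →+* L, c φ * u (g₁ • φ) =
          c φ₁ * u (g₁ • φ₁) + c (cbar φ₁) * u (g₁ • cbar φ₁) := by
        rw [← Finset.sum_pair (cbar_ne φ₁).symm (f := fun φ => c φ * u (g₁ • φ))]
        symm
        refine Finset.sum_subset (Finset.subset_univ _) fun φ _ hφ => ?_
        exfalso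
        simp only [Finset.mem_insert, Finset.mem_singleton, not_or] at hφ
        exact hφ.2 (hall φ hφ.1)
      have h4 : c (cbar φ₁) = -c φ₁ := hc φ₁
      have h5 : u (g₁ • cbar φ₁) = -u (g₁ • φ₁) := hua (g₁ • φ₁)
      rw [h3, h4, h5] at h2
      have h6 : c φ₁ * u (g₁ • φ₁) = 0 := by linarith
      exact (mul_eq_zero.1 h6).resolve_right hg₁
  · obtain ⟨v, l, hv, hvn, hvs, hcl⟩ := h1
    refine ⟨v, l, hv, hvn, hcl, fun hl => ?_⟩
    have hsum : ∀ g : G, ∑ x, u (g • x) * v x = 0 := by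
      intro g
      have h2 := hreli g
      have h3 : ∑ φ : F →+* L, c φ * u (g • φ) = l * ∑ x, u (g • x) * v x := by
        rw [Finset.mul_sum]
        refine Finset.sum_congr rfl fun x _ => ?_
        rw [hcl]
        ring
      rw [h3] at h2
      exact (mul_eq_zero.1 h2).resolve_left hl
    refine ⟨?_, hvs, ?_⟩
    · refine weilSlopes_of p j h e m π κ u hus hua v hv hvn hvs ?_ φ₀
      have h2 := hsum 1
      simpa only [one_smul] using h2
    · intro g
      have h2 : ∀ φ : F →+* L, (v φ : ℝ) *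
          dev p ((p : ℚ) ^ m) (e ((g • φ) π)) = κ * ((u (g • φ) * v φ : ℤ) : ℝ) := by
        intro φ
        rw [hus]
        push_cast
        ring
      rw [Finset.sum_congr rfl (fun φ _ => h2 φ), ← Finset.mul_sum, ← Int.cast_sum, hsum g,
        Int.cast_zero, mul_zero]

/-- The product of the conjugates in a block is, up to a root of unity, the square root of a
power of `p ^ m` (Kronecker). -/
theorem block_product (e : L →ₐ[ℚ] PadicAlgCl p) (m : ℕ) (π : F) (hint : IsIntegral ℤ π)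
    (hweil : ∀ φ : F →+* ℂ, ‖φ π‖ ^ 2 = (((p : ℚ) ^ m : ℚ) : ℝ))
    (v : (F →+* L) → ℤ) (hv : ∀ x, v x = 1 ∨ v x = -1) (hvn : ∀ x, v (cbar x) = -v x)
    (hsum : ∀ g : L ≃ₐ[ℚ] L, ∑ φ : F →+* L, (v φ : ℝ) *
      dev p ((p : ℚ) ^ m) (e ((g • φ) π)) = 0) (ε : ℤ) (hε : ε = 1 ∨ ε = -1) :
    ∃ s : ℕ, 0 < s ∧ (∏ φ ∈ Finset.univ.filter (fun φ : F →+* L => v φ = ε), φ π) ^ (2 * s) =
      (((p : L) ^ m) ^ (Finset.univ.filter (fun φ : F →+* L => v φ = ε)).card) ^ s := by
  classical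
  have hp : p.Prime := Fact.out
  have hq : (0 : ℚ) < (p : ℚ) ^ m := pow_pos (by exact_mod_cast hp.pos) _
  have hπ0 : π ≠ 0 := weil_ne hq hweil
  have h0 : ∀ χ : F →+* L, χ π ≠ 0 := fun χ => (map_ne_zero χ).2 hπ0
  have hI : ∀ χ : F →+* L, IsIntegral ℤ (χ π) := fun χ => map_isIntegral_int χ hint
  have hsl : ∀ φ : F →+* L, dev p ((p : ℚ) ^ m) (e ((cbar φ) π)) =
      -dev p ((p : ℚ) ^ m) (e (φ π)) := by
    intro φ
    have h1 := dev_inv p hq.ne' (((e : L →+* PadicAlgCl p).comp φ) π)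
      ((map_ne_zero _).2 (weil_ne hq hweil))
    rw [← weil_cbar hq hweil] at h1
    exact h1
  have hunit : ∀ (l : ℕ) [Fact l.Prime], l ≠ p → ∀ (e' : L →ₐ[ℚ] PadicAlgCl l) (χ : F →+* L),
      ‖e' (χ π)‖ = 1 := by
    intro l _ hlp e' χ
    have h1 : ‖e' (χ π)‖ ≤ 1 := norm_le_one_of_isIntegral l _ (map_isIntegral_int (e' : L →+* PadicAlgCl l) (hI χ))
    have h2 : ‖e' (cbar χ π)‖ ≤ 1 :=
      norm_le_one_of_isIntegral l _ (map_isIntegral_int (e' : L →+* PadicAlgCl l) (hI (cbar χ)))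
    have h3 : e' (χ π) * e' (cbar χ π) = (p : PadicAlgCl l) ^ m := by
      rw [← map_mul, weil_cbar hq hweil, mul_div_cancel₀ _ (h0 χ)]
      rw [map_ratCast]
      push_cast
      rfl
    have h4 : ‖e' (χ π)‖ * ‖e' (cbar χ π)‖ = 1 := by
      rw [← norm_mul, h3, norm_prime_pow_ne l p hp hlp]
    nlinarith [norm_nonneg (e' (χ π)), norm_nonneg (e' (cbar χ π))]
  set B := Finset.univ.filter (fun φ : F →+* L => v φ = ε) with hB
  have hhalf : IsHalf cbar B := by
    intro x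
    simp only [B, Finset.mem_filter, Finset.mem_univ, true_and, hvn]
    rcases hv x with h | h <;> rcases hε with h' | h' <;> rw [h, h'] <;> norm_num
  have hsumB : ∀ g : L ≃ₐ[ℚ] L, ∑ φ ∈ B, dev p ((p : ℚ) ^ m) (e ((g • φ) π)) = 0 := by
    intro g
    have h1 := hhalf.sum_symm cbar_cbar
      (fun φ => (v φ : ℝ) * dev p ((p : ℚ) ^ m) (e ((g • φ) π))) (fun φ => by
        have h2 : g • cbar φ = cbar (g • φ) := rfl
        rw [h2, hsl, hvn]
        push_cast
        ring)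
    rw [hsum g] at h1
    have h2 : ∑ φ ∈ B, (v φ : ℝ) * dev p ((p : ℚ) ^ m) (e ((g • φ) π)) =
        (ε : ℝ) * ∑ φ ∈ B, dev p ((p : ℚ) ^ m) (e ((g • φ) π)) := by
      rw [Finset.mul_sum]
      refine Finset.sum_congr rfl fun φ hφ => ?_
      rw [(Finset.mem_filter.1 hφ).2]
    rw [h2] at h1
    have h3 : (ε : ℝ) ≠ 0 := by
      rcases hε with h' | h' <;> rw [h'] <;> norm_num
    have h4 : (ε : ℝ) * ∑ φ ∈ B, dev p ((p : ℚ) ^ m) (e ((g • φ) π)) = 0 := by linarith
    exact (mul_eq_zero.1 h4).resolve_left h3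
  have hpL : ((p : L) ^ m) ^ B.card ≠ 0 :=
    pow_ne_zero _ (pow_ne_zero _ (by exact_mod_cast hp.ne_zero))
  obtain ⟨z, hzdef⟩ : ∃ z : L, z = (∏ φ ∈ B, φ π) ^ 2 / ((p : L) ^ m) ^ B.card := ⟨_, rfl⟩
  have hz0 : z ≠ 0 := by
    rw [hzdef]
    exact div_ne_zero (pow_ne_zero _ (Finset.prod_ne_zero_iff.2 fun φ _ => h0 φ)) hpL
  have hzp : ∀ g : L ≃ₐ[ℚ] L, ‖e (g z)‖ = 1 := by
    intro g
    have h1 : Real.log ‖e (g z)‖ = ∑ φ ∈ B, dev p ((p : ℚ) ^ m) (e ((g • φ) π)) := by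
      rw [hzdef]
      simp only [map_div₀, map_pow, map_prod, map_natCast, norm_div, norm_pow, norm_prod]
      have h2 : ∀ φ ∈ B, ‖e (g (φ π))‖ ≠ 0 := fun φ _ =>
        norm_ne_zero_iff.2 ((map_ne_zero _).2 ((map_ne_zero _).2 (h0 φ)))
      have h3 : ‖((p : ℕ) : PadicAlgCl p)‖ ≠ 0 :=
        norm_ne_zero_iff.2 (by exact_mod_cast hp.ne_zero)
      rw [Real.log_div (pow_ne_zero _ (Finset.prod_ne_zero_iff.2 h2))
        (pow_ne_zero _ (pow_ne_zero _ h3)), Real.log_pow, Real.log_prod h2, Real.log_pow]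
      unfold dev
      rw [Finset.sum_sub_distrib, ← Finset.mul_sum, Finset.sum_const, nsmul_eq_mul]
      have h4 : ‖((((p : ℚ) ^ m : ℚ)) : PadicAlgCl p)‖ = ‖((p : ℕ) : PadicAlgCl p)‖ ^ m := by
        push_cast
        rw [norm_pow]
      rw [h4]
      rfl
    rw [hsumB g] at h1
    have h2 : 0 < ‖e (g z)‖ := norm_pos_iff.2 ((map_ne_zero _).2 ((map_ne_zero _).2 hz0))
    rw [← Real.exp_log h2, h1, Real.exp_zero]
  have hz : IsIntegral ℤ z := by
    apply isIntegral_of_norm_le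
    intro l hl e'
    refine le_of_eq ?_
    by_cases hlp : l = p
    · subst hlp
      obtain ⟨g, hg⟩ := exists_gal e e'
      rw [hg]
      exact hzp g
    · rw [hzdef, map_div₀, map_pow, map_prod, norm_div, norm_pow, norm_prod,
        Finset.prod_congr rfl (fun φ _ => hunit l hlp e' φ), Finset.prod_const_one, one_pow,
        map_pow, map_pow, map_natCast, norm_pow, norm_prime_pow_ne l p hp hlp, one_pow, div_one]
  obtain ⟨s, hs, hs1⟩ := pow_eq_one_of_norm z hz (fun τ => by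
    have h1 : ∀ φ : F →+* L, ‖τ (φ π)‖ ^ 2 = (p : ℝ) ^ m := by
      intro φ
      have h2 := hweil ((τ : L →+* ℂ).comp φ)
      push_cast at h2
      exact h2
    rw [hzdef, map_div₀, map_pow, map_prod, norm_div, norm_pow, norm_prod, ← Finset.prod_pow,
      Finset.prod_congr rfl (fun φ _ => h1 φ), Finset.prod_const, map_pow, map_pow, map_natCast,
      norm_pow, norm_pow, Complex.norm_natCast, div_self]
    exact pow_ne_zero _ (pow_ne_zero _ (by exact_mod_cast hp.ne_zero)))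
  refine ⟨s, hs, ?_⟩
  rw [hzdef, div_pow, div_eq_one_iff_eq (pow_ne_zero _ hpL)] at hs1
  rw [pow_mul, hs1]

end Pool.Agent.H194R3.Weil
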