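import Mathlib
import Pool.Agent.H925R2.Ext

/-!
# Eigenclasses in exterior algebras: pairs and blocks
-/

set_option autoImplicit false
set_option linter.unusedSectionVars false

namespace Pool.Agent.H194R3.Weil

open Module Pool.Agent.H925R2 ExteriorAlgebra

variable {K V X I : Type*} [Field K] [AddCommGroup V] [Module K V]

theorem prod_perm {L L' : List (V × X)} (h : L.Perm L') :
    ∃ a : K, (L.map (fun e => ι K e.1)).prod = a • (L'.map (fun e => ι K e.1)).prod := by
  induction h with
  | nil => exact ⟨1, by simp⟩
  | cons e h ih =>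
    obtain ⟨a, ha⟩ := ih
    exact ⟨a, by rw [List.map_cons, List.prod_cons, ha, mul_smul_comm, List.map_cons,
      List.prod_cons]⟩
  | swap e e' l =>
    refine ⟨-1, ?_⟩
    simp only [List.map_cons, List.prod_cons]
    have h : ι K e'.1 * ι K e.1 = - (ι K e.1 * ι K e'.1) :=
      eq_neg_of_add_eq_zero_left (ι_add_mul_swap _ _)
    rw [← mul_assoc, h, neg_mul, neg_smul, one_smul, mul_assoc]
  | trans h1 h2 ih1 ih2 =>
    obtain ⟨a, ha⟩ := ih1
    obtain ⟨b, hb⟩ := ih2
    exact ⟨a * b, by rw [ha, hb, smul_smul]⟩

theorem exists_extract [DecidableEq X] : ∀ (bs : List X), bs.Nodup → ∀ (L : List (V × X)),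
    (∀ b ∈ bs, b ∈ L.map Prod.snd) →
      ∃ L1 L2 : List (V × X), L.Perm (L1 ++ L2) ∧ L1.map Prod.snd = bs := by
  intro bs
  induction bs with
  | nil => intro _ L _; exact ⟨[], L, by simp, rfl⟩
  | cons b bs ih =>
    intro hnd L hL
    obtain ⟨e, he, heb⟩ := List.mem_map.1 (hL b List.mem_cons_self)
    obtain ⟨M1, M2, rfl⟩ := List.append_of_mem he
    obtain ⟨L1, L2, hp, hm⟩ := ih (List.nodup_cons.1 hnd).2 (M1 ++ M2) (by
      intro b' hb'
      have h1 := hL b' (List.mem_cons_of_mem _ hb')
      have hne : b' ≠ b := by
        rintro rfl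
        exact (List.nodup_cons.1 hnd).1 hb'
      simp only [List.map_append, List.map_cons, List.mem_append, List.mem_cons] at h1 ⊢
      rcases h1 with h1 | h1 | h1
      · exact Or.inl h1
      · exact absurd (h1.trans heb) hne
      · exact Or.inr h1)
    refine ⟨e :: L1, L2, ?_, by rw [List.map_cons, hm, heb]⟩
    exact List.perm_middle.trans (List.Perm.cons e hp)

/-- Lists of eigenvectors which are balanced up to blocks. -/
theorem list_mem [Fintype X] [DecidableEq X] [DecidableEq I]
    (S : Subalgebra K (ExteriorAlgebra K V)) (ok : V × X → Prop)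
    (inv : X → X) (hinv : ∀ x, inv (inv x) = x) (hne : ∀ x, inv x ≠ x)
    (p : X → I) (hp : ∀ x, p (inv x) = p x)
    (v : X → ℤ) (hv : ∀ x, v x = 1 ∨ v x = -1) (hvn : ∀ x, v (inv x) = -v x)
    (hpair : ∀ e e', ok e → ok e' → e'.2 = inv e.2 → ι K e.1 * ι K e'.1 ∈ S) :
    ∀ (n : ℕ) (L : List (V × X)), L.length = n → (∀ e ∈ L, ok e) → ∀ l : I → ℤ,
      (∀ x, ((L.map Prod.snd).count x : ℤ) - ((L.map Prod.snd).count (inv x) : ℤ) =
        l (p x) * v x) →
      (∀ i, ∀ ε : ℤ, (ε = 1 ∨ ε = -1) → l i ≠ 0 → ∀ L1 : List (V × X), (∀ e ∈ L1, ok e) →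
        L1.map Prod.snd = (Finset.univ.filter (fun x => p x = i ∧ v x = ε)).toList →
          (L1.map (fun e => ι K e.1)).prod ∈ S) →
      (L.map (fun e => ι K e.1)).prod ∈ S := by
  intro n
  induction n using Nat.strong_induction_on with
  | _ n ih =>
    intro L hLn hL l hl hblock
    have hcount : ∀ L1 L2 : List (V × X), L.Perm (L1 ++ L2) → ∀ x,
        (L.map Prod.snd).count x = (L1.map Prod.snd).count x + (L2.map Prod.snd).count x := by
      intro L1 L2 h x
      rw [(h.map Prod.snd).count_eq, List.map_append, List.count_append]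
    have hfin : ∀ L1 L2 : List (V × X), L.Perm (L1 ++ L2) →
        (L1.map (fun e => ι K e.1)).prod ∈ S → (L2.map (fun e => ι K e.1)).prod ∈ S →
        (L.map (fun e => ι K e.1)).prod ∈ S := by
      intro L1 L2 h h1 h2
      obtain ⟨a, ha⟩ := prod_perm (K := K) h
      rw [ha, List.map_append, List.prod_append]
      exact S.smul_mem (S.mul_mem h1 h2) a
    have hmem1 : ∀ L1 L2 : List (V × X), L.Perm (L1 ++ L2) → (∀ e ∈ L1, ok e) ∧ ∀ e ∈ L2, ok e := by
      intro L1 L2 h
      exact ⟨fun e he => hL e (h.mem_iff.2 (List.mem_append_left _ he)),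
        fun e he => hL e (h.mem_iff.2 (List.mem_append_right _ he))⟩
    by_cases hex : ∃ x, l (p x) ≠ 0
    · obtain ⟨x₀, hx₀⟩ := hex
      obtain ⟨i, hi⟩ : ∃ i, i = p x₀ := ⟨_, rfl⟩
      rw [← hi] at hx₀
      obtain ⟨ε, hε, hεl⟩ : ∃ ε : ℤ, (ε = 1 ∨ ε = -1) ∧ 1 ≤ l i * ε := by
        rcases lt_or_gt_of_ne hx₀ with h | h
        · exact ⟨-1, Or.inr rfl, by omega⟩
        · exact ⟨1, Or.inl rfl, by omega⟩
      set B := Finset.univ.filter (fun x => p x = i ∧ v x = ε) with hB
      have hBmem : ∀ x, x ∈ B.toList ↔ p x = i ∧ v x = ε := by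
        intro x
        rw [Finset.mem_toList, hB]
        simp
      obtain ⟨L1, L2, hperm, hL1⟩ := exists_extract B.toList (Finset.nodup_toList B) L (by
        intro b hb
        obtain ⟨hb1, hb2⟩ := (hBmem b).1 hb
        rw [← List.count_pos_iff]
        have h1 := hl b
        rw [hb1, hb2] at h1
        omega)
      have hBpos : 0 < B.toList.length := by
        rw [List.length_pos_iff_exists_mem]
        by_cases h : v x₀ = ε
        · exact ⟨x₀, (hBmem _).2 ⟨hi.symm, h⟩⟩
        · refine ⟨inv x₀, (hBmem _).2 ⟨by rw [hp, hi], ?_⟩⟩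
          rw [hvn]
          rcases hv x₀ with h' | h' <;> rcases hε with h'' | h'' <;> omega
      have hlen : L1.length = B.toList.length := by
        rw [← hL1, List.length_map]
      have hlen2 : L.length = L1.length + L2.length := by
        rw [hperm.length_eq, List.length_append]
      obtain ⟨hok1, hok2⟩ := hmem1 L1 L2 hperm
      refine hfin L1 L2 hperm (hblock i ε hε hx₀ L1 hok1 hL1) ?_
      refine ih L2.length (by omega) L2 rfl hok2 (Function.update l i (l i - ε)) ?_ ?_
      · intro x
        have h1 := hl x
        rw [hcount L1 L2 hperm, hcount L1 L2 hperm, hL1] at h1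
        have hc : ∀ y, (B.toList.count y : ℤ) = if p y = i ∧ v y = ε then 1 else 0 := by
          intro y
          by_cases hy : p y = i ∧ v y = ε
          · rw [if_pos hy, List.count_eq_one_of_mem (Finset.nodup_toList B) ((hBmem y).2 hy)]
            rfl
          · rw [if_neg hy, List.count_eq_zero_of_not_mem (fun h => hy ((hBmem y).1 h))]
            rfl
        push_cast at h1
        rw [hc, hc, hp, hvn] at h1
        by_cases hpx : p x = i
        · rw [hpx, Function.update_self]
          rw [hpx] at h1
          rcases hv x with e1 | e1 <;> rcases hε with e2 | e2 <;> rw [e1, e2] at h1 ⊢ <;>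
            norm_num at h1 ⊢ <;> omega
        · rw [Function.update_of_ne hpx]
          rw [if_neg (fun h => hpx h.1), if_neg (fun h => hpx h.1)] at h1
          rw [← h1]
          ring
      · intro k ε' hε' hk
        refine hblock k ε' hε' ?_
        by_cases hki : k = i
        · rw [hki]; exact hx₀
        · rwa [Function.update_of_ne hki] at hk
    · push Not at hex
      match L, hLn, hL, hl, hcount, hfin, hmem1 with
      | [], _, _, _, _, _, _ =>
        rw [List.map_nil, List.prod_nil]
        exact S.one_mem
      | e :: L', hLn, hL, hl, hcount, hfin, hmem1 =>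
        have h0 : ∀ x, (((e :: L').map Prod.snd).count x) = ((e :: L').map Prod.snd).count (inv x) := by
          intro x
          have h1 := hl x
          rw [hex, zero_mul] at h1
          omega
        have hin1 : e.2 ∈ (e :: L').map Prod.snd := by simp
        have hin2 : inv e.2 ∈ (e :: L').map Prod.snd := by
          rw [← List.count_pos_iff, ← h0, List.count_pos_iff]
          exact hin1
        have hnd : [e.2, inv e.2].Nodup := by
          rw [List.nodup_cons]
          refine ⟨?_, by simp⟩
          rw [List.mem_singleton]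
          exact (hne e.2).symm
        obtain ⟨L1, L2, hperm, hL1⟩ := exists_extract [e.2, inv e.2] hnd (e :: L') (by
          intro b hb
          simp only [List.mem_cons, List.not_mem_nil, or_false] at hb
          rcases hb with rfl | rfl
          · exact hin1
          · exact hin2)
        obtain ⟨hok1, hok2⟩ := hmem1 L1 L2 hperm
        have hlen : L1.length = 2 := by
          have h1 := congrArg List.length hL1
          rw [List.length_map] at h1
          exact h1
        obtain ⟨a, b, rfl⟩ := List.length_eq_two.1 hlen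
        have hab : a.2 = e.2 ∧ b.2 = inv e.2 := by
          simpa using hL1
        have hlen2 : (e :: L').length = 2 + L2.length := by
          rw [hperm.length_eq, List.length_append, hlen]
        refine hfin [a, b] L2 hperm ?_ ?_
        · rw [List.map_cons, List.map_cons, List.map_nil, List.prod_cons, List.prod_singleton]
          exact hpair a b (hok1 a (by simp)) (hok1 b (by simp)) (by rw [hab.1, hab.2])
        · refine ih L2.length (by omega) L2 rfl hok2 l ?_ hblock
          intro x
          rw [hex, zero_mul]
          have h1 := h0 x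
          rw [hcount _ _ hperm, hcount _ _ hperm, hL1] at h1
          have h2 : [e.2, inv e.2].count x = [e.2, inv e.2].count (inv x) := by
            simp only [List.count_cons, List.count_nil]
            have h3 : (e.2 == x) = (inv e.2 == inv x) := by
              by_cases h : e.2 = x
              · simp [h]
              · have : inv e.2 ≠ inv x := fun h' => h (by rw [← hinv e.2, h', hinv])
                simp [h, this]
            have h4 : (inv e.2 == x) = (e.2 == inv x) := by
              by_cases h : inv e.2 = x
              · have : e.2 = inv x := by rw [← h, hinv]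
                simp [this, hinv]
              · have : e.2 ≠ inv x := fun h' => h (by rw [h', hinv])
                simp [h, this]
            rw [h3, h4]
            ring
          omega

/-- The value of the map induced by a power of `F` on a product of eigenvectors. -/
theorem map_prod_list (F : V →ₗ[K] V) (val : X → K) (k : ℕ) :
    ∀ L : List (V × X), (∀ e ∈ L, F e.1 = val e.2 • e.1) →
      ExteriorAlgebra.map (F ^ k) (L.map (fun e => ι K e.1)).prod =
        (L.map (fun e => val e.2)).prod ^ k • (L.map (fun e => ι K e.1)).prod := by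
  intro L
  induction L with
  | nil => intro _; simp
  | cons e L ih =>
    intro hL
    have h1 := ih (fun e' he' => hL e' (List.mem_cons_of_mem _ he'))
    have h2 : (F ^ k) e.1 = val e.2 ^ k • e.1 := by
      have h3 := hL e List.mem_cons_self
      clear ih h1 hL
      induction k with
      | zero => simp
      | succ k ihk => rw [pow_succ', Module.End.mul_apply, ihk, map_smul, h3, smul_smul, pow_succ]
    rw [List.map_cons, List.prod_cons, map_mul, h1, map_apply_ι, h2, map_smul, List.map_cons,
      List.prod_cons, smul_mul_smul_comm, mul_pow]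

theorem prod_list_mem (L : List (V × X)) :
    (L.map (fun e => ι K e.1)).prod ∈ ⋀[K]^(L.length) V := by
  induction L with
  | nil =>
    rw [List.map_nil, List.prod_nil, List.length_nil, exteriorPower, pow_zero]
    exact Submodule.one_le.1 le_rfl
  | cons e L ih =>
    rw [List.map_cons, List.prod_cons, List.length_cons, exteriorPower, pow_succ']
    exact Submodule.mul_mem_mul (LinearMap.mem_range_self _ _) ih

/-- To show that eigenclasses belong to a subalgebra, it is enough to treat products of
eigenvectors. -/
theorem mem_of_lists (F : V →ₗ[K] V) (val : X → K)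
    (hspan : Submodule.span K {v : V | ∃ x, F v = val x • v} = ⊤) (n s : ℕ) (c : K)
    (S : Subalgebra K (ExteriorAlgebra K V))
    (hS : ∀ L : List (V × X), L.length = n → (∀ e ∈ L, F e.1 = val e.2 • e.1) →
      (L.map (fun e => val e.2)).prod ^ s = c → (L.map (fun e => ι K e.1)).prod ∈ S)
    (x : ExteriorAlgebra K V) (hx : x ∈ ⋀[K]^n V)
    (hFx : ExteriorAlgebra.map (F ^ s) x = c • x) : x ∈ S := by
  classical
  set E' : Set V := {v : V | ∃ x, F v = val x • v} with hs
  have hsp := exteriorPower.ιMulti_span_fixedDegree_of_span_eq_top K n V hspan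
  set T : Set (ExteriorAlgebra K V) :=
    {y | ∃ L : List (V × X), L.length = n ∧ (∀ e ∈ L, F e.1 = val e.2 • e.1) ∧
      (L.map (fun e => ι K e.1)).prod = y} with hT
  have hTspan : x ∈ Submodule.span K T := by
    rw [← hsp] at hx
    refine Submodule.span_mono ?_ hx
    rintro _ ⟨a, ha, rfl⟩
    have h1 : ∀ j, ∃ y, F (a j) = val y • a j := fun j => ha ⟨j, rfl⟩
    choose y hy using h1
    refine ⟨List.ofFn fun j => (a j, y j), by simp, ?_, ?_⟩
    · intro e he
      rw [List.mem_ofFn] at he
      obtain ⟨j, rfl⟩ := he
      exact hy j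
    · rw [ExteriorAlgebra.ιMulti_apply, List.map_ofFn]
      rfl
  have hmem := mem_span_eigen (ExteriorAlgebra.map (F ^ s)).toLinearMap T (by
    rintro t ⟨L, _, hL, rfl⟩
    exact ⟨_, map_prod_list F val s L hL⟩) c x hTspan hFx
  have hle : Submodule.span K {t ∈ T | (ExteriorAlgebra.map (F ^ s)).toLinearMap t = c • t} ≤
      Subalgebra.toSubmodule S := by
    rw [Submodule.span_le]
    rintro t ⟨⟨L, hLn, hL, rfl⟩, ht⟩
    by_cases h0 : (L.map (fun e => ι K e.1)).prod = 0
    · rw [h0]; exact Submodule.zero_mem _
    refine hS L hLn hL ?_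
    have h1 : (L.map (fun e => val e.2)).prod ^ s • (L.map (fun e => ι K e.1)).prod =
        c • (L.map (fun e => ι K e.1)).prod := by
      rw [← map_prod_list F val s L hL]; exact ht
    exact smul_left_injective K h0 h1
  exact hle hmem

end Pool.Agent.H194R3.Weil
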