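import Mathlib
import Pool.Agent.H194R3.Weil.Block
import Pool.Agent.H194R3.Weil.Ext

/-!
# Tate classes are generated by divisor classes and Weil classes
-/

set_option autoImplicit false
set_option linter.unusedSectionVars false
set_option linter.unusedVariables false

namespace Pool.Agent.H194R3.Weil

open NumberField Module Pool.Agent.H925R2 Pool.Agent.H485R3 Pool.Agent.H204R3.CM
  Pool.Agent.H868R3.TwoOdd Pool.Agent.H194R3.CM Pool.Agent.H194R3.Tate

/-- The Weil classes for the field `F`: the products of eigenvectors `v` of the map `Fr`, with the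
eigenvalues `σ π`, where `σ` runs exactly once through the extensions to `F` of one embedding of an
imaginary quadratic subfield `ℚ(δ)` of `F`. -/
def weilClasses {F : Type*} [Field F] (π : F) {Ω V : Type*} [Field Ω] [AddCommGroup V]
    [Module Ω V] (Fr : V →ₗ[Ω] V) : Set (ExteriorAlgebra Ω V) :=
  {y | ∃ (δ : F) (d : ℚ) (δ' : Ω) (M : List (V × (F →+* Ω))), d < 0 ∧ δ ^ 2 = (d : F) ∧
    δ' ^ 2 = (d : Ω) ∧ (M.map Prod.snd).Nodup ∧ (∀ σ, σ ∈ M.map Prod.snd ↔ σ δ = δ') ∧
    (∀ e ∈ M, Fr e.1 = e.2 π • e.1) ∧ y = (M.map (fun e => ExteriorAlgebra.ι Ω e.1)).prod}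

variable {I : Type*} (p : ℕ) [Fact p.Prime] {K : I → Type*} [∀ i, Field (K i)]
  [∀ i, NumberField (K i)] [∀ i, IsCMField (K i)]

/-- A multiplicative relation gives a relation between slopes. -/
theorem rel_of_list [Fintype I] {L : Type*} [Field L] [NumberField L] [IsGalois ℚ L]
    [DecidableEq (Σ i, (K i →+* L))]
    (q : ℚ) (hq : 0 < q) (π : ∀ i, K i)
    (hweil : ∀ i, ∀ φ : K i →+* ℂ, ‖φ (π i)‖ ^ 2 = (q : ℝ)) (e : L →ₐ[ℚ] PadicAlgCl p)
    (xs : List (Σ i, (K i →+* L))) (r s : ℕ) (hs : 0 < s) (hlen : xs.length = 2 * r)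
    (hprod : (xs.map (fun x => x.2 (π x.1))).prod ^ s = ((q : L) ^ r) ^ s) (g : L ≃ₐ[ℚ] L) :
    ∑ x : Σ i, (K i →+* L), (((xs.count x : ℤ) - (xs.count (inj x) : ℤ) : ℤ) : ℝ) *
      slope p (fun _ => q) π e (g • x) = 0 := by
  classical
  have hget : ∀ G : (Σ i, (K i →+* L)) → ℝ, ∑ a : Fin xs.length, G (xs.get a) =
      ∑ y, (xs.count y : ℝ) * G y := by
    intro G
    have h1 : ∑ a : Fin xs.length, G (xs.get a) = (xs.map G).sum := by
      conv_rhs => rw [← List.ofFn_get xs, List.map_ofFn, List.sum_ofFn]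
      rfl
    rw [h1, Finset.sum_list_map_count]
    have h2 : ∀ y, xs.count y • G y = (xs.count y : ℝ) * G y := fun y => nsmul_eq_mul _ _
    simp only [h2]
    refine Finset.sum_subset (Finset.subset_univ _) fun y _ hy => ?_
    rw [List.mem_toFinset] at hy
    rw [List.count_eq_zero_of_not_mem hy]
    simp
  have h1 := sum_dev p (fun _ : Fin xs.length => ()) (fun _ => q) (fun _ => hq)
    (fun a => g ((xs.get a).2 (π (xs.get a).1)))
    (fun a => (map_ne_zero g).2 ((map_ne_zero _).2 (weil_ne hq (hweil _)))) s hs (by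
      have h2 : ∏ a : Fin xs.length, g ((xs.get a).2 (π (xs.get a).1)) =
          g (xs.map (fun x => x.2 (π x.1))).prod := by
        rw [← map_prod]
        congr 1
        conv_rhs => rw [← List.ofFn_get xs, List.map_ofFn, List.prod_ofFn]
        rfl
      rw [h2, Finset.prod_const, Finset.card_univ, Fintype.card_fin, hlen, mul_comm 2 s, pow_mul,
        ← map_pow, hprod, ← map_pow, ← pow_mul, ← pow_mul, map_pow, map_ratCast, ← pow_mul]
      congr 1
      ring) e
  have h2 : ∑ y : Σ i, (K i →+* L), (xs.count y : ℝ) * slope p (fun _ => q) π e (g • y) = 0 := by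
    rw [← hget (fun y => slope p (fun _ => q) π e (g • y))]
    exact h1
  have h3 : ∑ y : Σ i, (K i →+* L), (xs.count (inj y) : ℝ) * slope p (fun _ => q) π e (g • y) =
      - ∑ y : Σ i, (K i →+* L), (xs.count y : ℝ) * slope p (fun _ => q) π e (g • y) := by
    rw [← Finset.sum_neg_distrib]
    refine Finset.sum_nbij' inj inj (fun _ _ => Finset.mem_univ _)
      (fun _ _ => Finset.mem_univ _) (fun y _ => inj_inj y) (fun y _ => inj_inj y) ?_
    intro y _
    have h4 : g • y = inj (g • inj y) := by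
      obtain ⟨a, ψ⟩ := y
      change _ = (⟨a, cbar (g • cbar ψ)⟩ : Σ i, (K i →+* L))
      have h5 : g • cbar ψ = cbar (g • ψ) := rfl
      rw [h5, cbar_cbar]
      rfl
    conv_lhs => rw [h4, slope_inj p (fun _ => hq) hweil]
    ring
  have h4 : ∀ y : Σ i, (K i →+* L), (((xs.count y : ℤ) - (xs.count (inj y) : ℤ) : ℤ) : ℝ) *
      slope p (fun _ => q) π e (g • y) = (xs.count y : ℝ) * slope p (fun _ => q) π e (g • y) -
        (xs.count (inj y) : ℝ) * slope p (fun _ => q) π e (g • y) := by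
    intro y
    push_cast
    ring
  rw [Finset.sum_congr rfl (fun y _ => h4 y), Finset.sum_sub_distrib, h3, h2]
  simp

/-- All relations between the slopes, for families. -/
theorem rel_structure [Fintype I] {L : Type*} [Field L] [NumberField L] [IsGalois ℚ L]
    (m : ℕ) (π : ∀ i, K i) (hint : ∀ i, IsIntegral ℤ (π i))
    (hgen : ∀ i, ∀ s : ℕ, 0 < s → IntermediateField.adjoin ℚ {π i ^ s} = ⊤)
    (hweil : ∀ i, ∀ φ : K i →+* ℂ, ‖φ (π i)‖ ^ 2 = (((p : ℚ) ^ m : ℚ) : ℝ))
    (hpair : ∀ i, PairTransitive (maximalRealSubfield (K i)))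
    (hdeg : ∀ i, Odd (finrank ℚ (maximalRealSubfield (K i))) ∨
      (finrank ℚ (maximalRealSubfield (K i)) - 1).Prime ∨
        TripleTransitive (maximalRealSubfield (K i)))
    (hflip : ∀ x y : Σ i, (K i →+* ℂ), y.1 ≠ x.1 → Flipped x y)
    (j : L →+* ℂ) (h : ∀ i, ∀ ψ : K i →+* ℂ, ∃ φ : K i →+* L, j.comp φ = ψ)
    (e : L →ₐ[ℚ] PadicAlgCl p) (c : (Σ i, (K i →+* L)) → ℤ) (hc : ∀ x, c (inj x) = -c x)
    (hrel : ∀ g : L ≃ₐ[ℚ] L, ∑ x : Σ i, (K i →+* L), (c x : ℝ) *
      slope p (fun _ => (p : ℚ) ^ m) π e (g • x) = 0) :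
    ∃ (v : (Σ i, (K i →+* L)) → ℤ) (l : I → ℤ), (∀ x, v x = 1 ∨ v x = -1) ∧
      (∀ x, v (inj x) = -v x) ∧ (∀ x, c x = l x.1 * v x) ∧
      ∀ i, l i ≠ 0 → WeilSlopes p (π i) m ∧
        (∀ (g : L ≃ₐ[ℚ] L) (φ ψ : K i →+* L),
          v ⟨i, g • φ⟩ * v ⟨i, g • ψ⟩ = v ⟨i, φ⟩ * v ⟨i, ψ⟩) ∧
        ∀ g : L ≃ₐ[ℚ] L, ∑ φ : K i →+* L, (v ⟨i, φ⟩ : ℝ) *
          dev p ((p : ℚ) ^ m) (e ((g • φ) (π i))) = 0 := by
  classical
  have hp : p.Prime := Fact.out
  have hq : ∀ i : I, (0 : ℚ) < (p : ℚ) ^ m := fun i => pow_pos (by exact_mod_cast hp.pos) _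
  let X := Σ i, (K i →+* L)
  let G := L ≃ₐ[ℚ] L
  have hG : ∀ (g : G) (x : X), g • inj x = inj (g • x) := by
    rintro g ⟨a, φ⟩
    rfl
  obtain ⟨hblock, -⟩ := core_block_real (X := X) (G := G) inj hG (fun x => x.1) (slope p _ π e)
    (slope_inj p hq hweil e)
    (fun x y hxy => by
      obtain ⟨g, hg | hg | hg⟩ := flip_transfer j x y (hflip _ _ hxy)
      · exact ⟨g, Or.inl hg⟩
      · exact ⟨g, Or.inr hg⟩
      · exfalso
        apply hxy
        exact (congrArg Sigma.fst hg.1).symm) c hrel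
  have hblock' : ∀ i, ∀ g : G, ∑ φ : K i →+* L, (c ⟨i, φ⟩ : ℝ) *
      dev p ((p : ℚ) ^ m) (e ((g • φ) (π i))) = 0 := by
    intro i g
    rw [← hblock i g, Finset.sum_filter, Fintype.sum_sigma, Finset.sum_eq_single i]
    · refine Finset.sum_congr rfl fun φ _ => ?_
      rw [if_pos rfl]
      rfl
    · intro b _ hb
      refine Finset.sum_eq_zero fun φ _ => ?_
      rw [if_neg hb]
    · intro h
      exact absurd (Finset.mem_univ _) h
  have hall := fun i => block_structure p j (h i) e m (π i) (hint i) (hgen i) (hweil i) (hpair i)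
    (hdeg i) (fun φ => c ⟨i, φ⟩) (fun φ => hc ⟨i, φ⟩) (hblock' i)
  choose v l hv hvn hcl hrest using hall
  exact ⟨fun x => v x.1 x.2, l, fun x => hv x.1 x.2, fun x => hvn x.1 x.2,
    fun x => hcl x.1 x.2, hrest⟩

theorem exists_fiber_list {V : Type*} {L : Type*} [Field L] (i : I) :
    ∀ M : List (V × (Σ i, (K i →+* L))), (∀ e ∈ M, e.2.1 = i) →
      ∃ M' : List (V × (K i →+* L)), M = M'.map (fun e => (e.1, ⟨i, e.2⟩)) := by
  intro M
  induction M with
  | nil => intro _; exact ⟨[], rfl⟩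
  | cons e M ih =>
    intro hM
    obtain ⟨M', hM'⟩ := ih (fun e' he' => hM e' (List.mem_cons_of_mem _ he'))
    obtain ⟨w, ⟨i', φ⟩⟩ := e
    have h1 : i' = i := hM _ List.mem_cons_self
    subst h1
    exact ⟨(w, φ) :: M', by rw [List.map_cons, hM']⟩

/-- **Tate classes are generated by divisor classes and Weil classes.** -/
theorem main [Finite I] (m : ℕ) (π : ∀ i, K i) (hint : ∀ i, IsIntegral ℤ (π i))
    (hgen : ∀ i, ∀ s : ℕ, 0 < s → IntermediateField.adjoin ℚ {π i ^ s} = ⊤)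
    (hweil : ∀ i, ∀ φ : K i →+* ℂ, ‖φ (π i)‖ ^ 2 = (((p : ℚ) ^ m : ℚ) : ℝ))
    (hpair : ∀ i, PairTransitive (maximalRealSubfield (K i)))
    (hdeg : ∀ i, Odd (finrank ℚ (maximalRealSubfield (K i))) ∨
      (finrank ℚ (maximalRealSubfield (K i)) - 1).Prime ∨
        TripleTransitive (maximalRealSubfield (K i)))
    (hflip : ∀ x y : Σ i, (K i →+* ℂ), y.1 ≠ x.1 → Flipped x y)
    {Ω : Type*} [Field Ω] [IsAlgClosed Ω] [CharZero Ω]
    {V : Type*} [AddCommGroup V] [Module Ω V] (F : V →ₗ[Ω] V)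
    (hF : Submodule.span Ω {v : V | ∃ i, ∃ σ : K i →+* Ω, F v = σ (π i) • v} = ⊤)
    (r s : ℕ) (hs : 0 < s) (x : ExteriorAlgebra Ω V) (hx : x ∈ ⋀[Ω]^(2 * r) V)
    (hFx : ExteriorAlgebra.map (F ^ s) x = (((p : Ω) ^ m) ^ r) ^ s • x) :
    x ∈ Algebra.adjoin Ω
      ({y : ExteriorAlgebra Ω V | y ∈ ⋀[Ω]^2 V ∧ ExteriorAlgebra.map F y = (p : Ω) ^ m • y} ∪
        {y | ∃ i, WeilSlopes p (π i) m ∧ y ∈ weilClasses (π i) F ∧
          y ∈ ⋀[Ω]^(finrank ℚ (maximalRealSubfield (K i))) V ∧ ∃ s' : ℕ, 0 < s' ∧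
            ExteriorAlgebra.map (F ^ (2 * s')) y =
              (((p : Ω) ^ m) ^ finrank ℚ (maximalRealSubfield (K i))) ^ s' • y}) := by
  classical
  cases nonempty_fintype I
  have hp : p.Prime := Fact.out
  have hq : (0 : ℚ) < (p : ℚ) ^ m := pow_pos (by exact_mod_cast hp.pos) _
  obtain ⟨L, hL1, hL2, j, h⟩ := exists_galois K
  let e : L →ₐ[ℚ] PadicAlgCl p := IsAlgClosed.lift
  let jΩ : L →ₐ[ℚ] Ω := IsAlgClosed.lift
  let X := Σ i, (K i →+* L)
  let val : X → Ω := fun x => jΩ (x.2 (π x.1))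
  have hlift : ∀ i, ∀ σ : K i →+* Ω, ∃ φ : K i →+* L, (jΩ : L →+* Ω).comp φ = σ :=
    fun i σ => exists_lift j (h i) jΩ σ
  have hspan : Submodule.span Ω {v : V | ∃ x, F v = val x • v} = ⊤ := by
    rw [← hF]
    congr 1
    ext v
    constructor
    · rintro ⟨⟨i, φ⟩, hv⟩
      exact ⟨i, (jΩ : L →+* Ω).comp φ, hv⟩
    · rintro ⟨i, σ, hv⟩
      obtain ⟨φ, rfl⟩ := hlift i σ
      exact ⟨⟨i, φ⟩, hv⟩
  have hcast : (((p : ℚ) ^ m : ℚ) : L) = (p : L) ^ m := by push_cast; rfl
  have hvalinj : ∀ x : X, val x * val (inj x) = (p : Ω) ^ m := by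
    rintro ⟨i, φ⟩
    change jΩ (φ (π i)) * jΩ (cbar φ (π i)) = _
    rw [← map_mul, weil_cbar hq (hweil i), mul_div_cancel₀ _
      ((map_ne_zero φ).2 (weil_ne hq (hweil i))), hcast, map_pow, map_natCast]
  refine mem_of_lists F val hspan (2 * r) s _ _ ?_ x hx hFx
  intro M hMlen hM hMprod
  have hrelM := rel_of_list p ((p : ℚ) ^ m) hq π hweil e (M.map Prod.snd) r s hs
    (by rw [List.length_map, hMlen]) (by
      apply jΩ.injective
      change jΩ _ = jΩ _
      rw [map_pow, map_list_prod, List.map_map, List.map_map, hcast]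
      simp only [map_pow, map_natCast]
      exact hMprod)
  obtain ⟨v, l, hv, hvn, hcl, hW⟩ := rel_structure p m π hint hgen hweil hpair hdeg hflip j h e
    (fun x => ((M.map Prod.snd).count x : ℤ) - ((M.map Prod.snd).count (inj x) : ℤ))
    (fun x => by rw [inj_inj]; ring) hrelM
  refine list_mem _ (fun e => F e.1 = val e.2 • e.1) inj inj_inj ?_ Sigma.fst (fun _ => rfl) v hv
    hvn ?_ M.length M rfl hM l hcl ?_
  · rintro ⟨a, φ⟩ h'
    exact cbar_ne φ (eq_of_heq (Sigma.mk.inj_iff.1 h').2)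
  · intro e₁ e₂ h1 h2 h3
    refine Algebra.subset_adjoin (Or.inl ?_)
    exact iota_mul_mem_deg2 F _ _ _ _ _ h1 h2 (by rw [h3]; exact hvalinj e₁.2)
  · intro i ε hε hli M₁ hM₁ hM₁s
    obtain ⟨hWi, hvs, hvsum⟩ := hW i hli
    refine Algebra.subset_adjoin (Or.inr ⟨i, hWi, ?_⟩)
    obtain ⟨M', hM'⟩ := exists_fiber_list i M₁ (by
      intro e₁ he₁
      have h1 : e₁.2 ∈ M₁.map Prod.snd := List.mem_map.2 ⟨e₁, he₁, rfl⟩
      rw [hM₁s, Finset.mem_toList, Finset.mem_filter] at h1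
      exact h1.2.1)
    have hsnd : (M'.map Prod.snd).map (fun φ : K i →+* L => (⟨i, φ⟩ : X)) =
        (Finset.univ.filter (fun x : X => x.1 = i ∧ v x = ε)).toList := by
      rw [← hM₁s, hM', List.map_map, List.map_map]
      rfl
    have hnd : (M'.map Prod.snd).Nodup := by
      have h1 := Finset.nodup_toList (Finset.univ.filter (fun x : X => x.1 = i ∧ v x = ε))
      rw [← hsnd] at h1
      exact List.Nodup.of_map _ h1
    have hmem : ∀ φ : K i →+* L, φ ∈ M'.map Prod.snd ↔ v ⟨i, φ⟩ = ε := by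
      intro φ
      have h1 : (⟨i, φ⟩ : X) ∈ (M'.map Prod.snd).map (fun φ : K i →+* L => (⟨i, φ⟩ : X)) ↔
          φ ∈ M'.map Prod.snd := by
        rw [List.mem_map]
        constructor
        · rintro ⟨ψ, hψ, h2⟩
          rw [← eq_of_heq (Sigma.mk.inj_iff.1 h2).2]
          exact hψ
        · intro h2
          exact ⟨φ, h2, rfl⟩
      rw [← h1, hsnd, Finset.mem_toList, Finset.mem_filter]
      simp
    have htof : (M'.map Prod.snd).toFinset =
        Finset.univ.filter (fun φ : K i →+* L => v ⟨i, φ⟩ = ε) := by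
      ext φ
      rw [List.mem_toFinset, hmem]
      simp
    have hhalf : IsHalf cbar (Finset.univ.filter (fun φ : K i →+* L => v ⟨i, φ⟩ = ε)) := by
      intro φ
      have h1 : v ⟨i, cbar φ⟩ = -v ⟨i, φ⟩ := hvn ⟨i, φ⟩
      simp only [Finset.mem_filter, Finset.mem_univ, true_and, h1]
      rcases hv ⟨i, φ⟩ with h | h <;> rcases hε with h' | h' <;> rw [h, h'] <;> norm_num
    have hcard : (Finset.univ.filter (fun φ : K i →+* L => v ⟨i, φ⟩ = ε)).card =
        finrank ℚ (maximalRealSubfield (K i)) := by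
      have h1 := hhalf.card cbar_cbar
      have h0 : finrank (maximalRealSubfield (K i)) (K i) = 2 :=
        Algebra.IsQuadraticExtension.finrank_eq_two _ _
      have h2 : Fintype.card (K i →+* L) = 2 * finrank ℚ (maximalRealSubfield (K i)) := by
        rw [card_emb j (h i), ← finrank_mul_finrank ℚ (maximalRealSubfield (K i)) (K i),
          h0, mul_comm]
      omega
    have hlen : M₁.length = finrank ℚ (maximalRealSubfield (K i)) := by
      rw [← hcard, ← htof, List.toFinset_card_of_nodup hnd, hM', List.length_map, List.length_map]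
    have hy : M₁.map (fun e => ExteriorAlgebra.ι Ω e.1) =
        (M'.map (fun e => (e.1, (jΩ : L →+* Ω).comp e.2))).map
          (fun e => ExteriorAlgebra.ι Ω e.1) := by
      rw [hM', List.map_map, List.map_map]
      rfl
    refine ⟨?_, ?_, ?_⟩
    · obtain ⟨φ₀, hφ₀⟩ : ∃ φ₀ : K i →+* L, v ⟨i, φ₀⟩ = ε := by
        have h1 : 0 < (Finset.univ.filter (fun φ : K i →+* L => v ⟨i, φ⟩ = ε)).card := by
          rw [hcard]
          exact finrank_pos
        obtain ⟨φ₀, hφ₀⟩ := Finset.card_pos.1 h1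
        exact ⟨φ₀, (Finset.mem_filter.1 hφ₀).2⟩
      obtain ⟨δ, d, hd, hδ, hφδ⟩ := exists_delta j (fun φ : K i →+* L => v ⟨i, φ⟩)
        (fun φ => hv ⟨i, φ⟩) (fun φ => hvn ⟨i, φ⟩) hvs φ₀
      have hδ0 : δ ≠ 0 := by
        rintro rfl
        rw [zero_pow two_ne_zero] at hδ
        have h1 : d = 0 := by exact_mod_cast hδ.symm
        exact hd.ne h1
      have hx0 : φ₀ δ ≠ 0 := (map_ne_zero φ₀).2 hδ0
      refine ⟨δ, d, jΩ (φ₀ δ), M'.map (fun e => (e.1, (jΩ : L →+* Ω).comp e.2)), hd, hδ, ?_, ?_,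
        ?_, ?_, congrArg List.prod hy⟩
      · rw [← map_pow, ← map_pow, hδ, map_ratCast, map_ratCast]
      · have h1 : (M'.map (fun e => (e.1, (jΩ : L →+* Ω).comp e.2))).map Prod.snd =
            (M'.map Prod.snd).map (fun φ => (jΩ : L →+* Ω).comp φ) := by
          rw [List.map_map, List.map_map]
          rfl
        rw [h1]
        refine hnd.map ?_
        intro φ ψ h2
        ext a
        exact congrArg Subtype.val (jΩ.injective (RingHom.congr_fun h2 a))
      · intro σ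
        have h1 : (M'.map (fun e => (e.1, (jΩ : L →+* Ω).comp e.2))).map Prod.snd =
            (M'.map Prod.snd).map (fun φ => (jΩ : L →+* Ω).comp φ) := by
          rw [List.map_map, List.map_map]
          rfl
        have hiff : ∀ φ : K i →+* L, jΩ (φ δ) = jΩ (φ₀ δ) ↔ v ⟨i, φ⟩ = ε := by
          intro φ
          have h2 := hφδ φ
          simp only [hφ₀] at h2
          constructor
          · intro h3
            have h4 : φ δ = φ₀ δ := jΩ.injective h3
            rw [h4] at h2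
            have h5 : ((v ⟨i, φ⟩ * ε : ℤ) : L) = 1 := by
              apply mul_right_cancel₀ hx0
              rw [← h2, one_mul]
            have h6 : v ⟨i, φ⟩ * ε = 1 := by exact_mod_cast h5
            rcases hv ⟨i, φ⟩ with e1 | e1 <;> rcases hε with e2 | e2 <;> rw [e1, e2] at h6 ⊢ <;>
              norm_num at h6
          · intro h3
            have h4 : v ⟨i, φ⟩ * ε = 1 := by
              rw [h3]
              rcases hε with e2 | e2 <;> rw [e2] <;> norm_num
            rw [h2, h4, Int.cast_one, one_mul]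
        rw [h1, List.mem_map]
        constructor
        · rintro ⟨φ, hφ, rfl⟩
          exact (hiff φ).2 ((hmem φ).1 hφ)
        · intro h2
          obtain ⟨φ, rfl⟩ := hlift i σ
          exact ⟨φ, (hmem φ).2 ((hiff φ).1 h2), rfl⟩
      · intro e₁ he₁
        obtain ⟨e₂, he₂, rfl⟩ := List.mem_map.1 he₁
        refine hM₁ (e₂.1, ⟨i, e₂.2⟩) ?_
        rw [hM']
        exact List.mem_map.2 ⟨e₂, he₂, rfl⟩
    · rw [← hlen]
      exact prod_list_mem M₁
    · obtain ⟨s', hs', hprod⟩ := block_product p e m (π i) (hint i) (hweil i)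
        (fun φ => v ⟨i, φ⟩) (fun φ => hv ⟨i, φ⟩) (fun φ => hvn ⟨i, φ⟩) hvsum ε hε
      refine ⟨s', hs', ?_⟩
      rw [map_prod_list F val (2 * s') M₁ hM₁]
      congr 1
      have h1 : (M₁.map (fun e => val e.2)).prod =
          jΩ (∏ φ ∈ Finset.univ.filter (fun φ : K i →+* L => v ⟨i, φ⟩ = ε), φ (π i)) := by
        rw [← htof, List.prod_toFinset _ hnd, map_list_prod, hM']
        simp only [List.map_map]
        rfl
      rw [h1, ← map_pow, hprod, hcard]
      simp only [map_pow, map_natCast]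

end Pool.Agent.H194R3.Weil
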