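import Mathlib
import Pool.Agent.H194R3.Weil.Main

/-!
# Degrees in which there are no exceptional Tate classes
-/

set_option autoImplicit false
set_option linter.unusedSectionVars false
set_option linter.unusedVariables false

namespace Pool.Agent.H194R3.Weil

open NumberField Module Pool.Agent.H925R2 Pool.Agent.H485R3 Pool.Agent.H204R3.CM
  Pool.Agent.H868R3.TwoOdd Pool.Agent.H194R3.CM Pool.Agent.H194R3.Tate

theorem exists_perm_of_not_nodup {V X : Type*} : ∀ M : List (V × X), ¬ (M.map Prod.snd).Nodup →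
    ∃ (a b : V × X) (M' : List (V × X)), M.Perm (a :: b :: M') ∧ a.2 = b.2 := by
  intro M
  induction M with
  | nil => intro h; exact absurd (by simp) h
  | cons e M ih =>
    intro h
    rw [List.map_cons, List.nodup_cons, not_and_or, not_not] at h
    rcases h with h | h
    · obtain ⟨e', he', h1⟩ := List.mem_map.1 h
      obtain ⟨M1, M2, rfl⟩ := List.append_of_mem he'
      exact ⟨e, e', M1 ++ M2, List.Perm.cons e List.perm_middle, h1.symm⟩
    · obtain ⟨a, b, M', h1, h2⟩ := ih h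
      refine ⟨a, b, e :: M', ?_, h2⟩
      refine (List.Perm.cons e h1).trans ?_
      refine (List.Perm.swap a e (b :: M')).trans (List.Perm.cons a ?_)
      exact List.Perm.swap b e M'

variable {I : Type*} (p : ℕ) [Fact p.Prime] {K : I → Type*} [∀ i, Field (K i)]
  [∀ i, NumberField (K i)] [∀ i, IsCMField (K i)]

/-- If there are no blocks, all Tate classes are polynomials in those of degree two. -/
theorem mem_deg2_of [Finite I] (m : ℕ) (π : ∀ i, K i) (hint : ∀ i, IsIntegral ℤ (π i))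
    (hgen : ∀ i, ∀ s : ℕ, 0 < s → IntermediateField.adjoin ℚ {π i ^ s} = ⊤)
    (hweil : ∀ i, ∀ φ : K i →+* ℂ, ‖φ (π i)‖ ^ 2 = (((p : ℚ) ^ m : ℚ) : ℝ))
    (hpair : ∀ i, PairTransitive (maximalRealSubfield (K i)))
    (hdeg : ∀ i, Odd (finrank ℚ (maximalRealSubfield (K i))) ∨
      (finrank ℚ (maximalRealSubfield (K i)) - 1).Prime ∨
        TripleTransitive (maximalRealSubfield (K i)))
    (hflip : ∀ x y : Σ i, (K i →+* ℂ), y.1 ≠ x.1 → Flipped x y)
    {Ω : Type*} [Field Ω] [IsAlgClosed Ω] [CharZero Ω]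
    {V : Type*} [AddCommGroup V] [Module Ω V] (F : V →ₗ[Ω] V)
    (hF : Submodule.span Ω {v : V | ∃ i, ∃ σ : K i →+* Ω, F v = σ (π i) • v} = ⊤)
    (r s : ℕ) (hs : 0 < s)
    (hno : ∀ (L : IntermediateField ℚ (AlgebraicClosure ℚ)) (_ : NumberField L) (_ : IsGalois ℚ L)
      (jΩ : L →ₐ[ℚ] Ω) (_ : DecidableEq (Σ i, (K i →+* L)))
      (M : List (V × (Σ i, (K i →+* L)))), M.length = 2 * r →
      (∀ e ∈ M, F e.1 = jΩ (e.2.2 (π e.2.1)) • e.1) →
      (M.map (fun e => ExteriorAlgebra.ι Ω e.1)).prod ≠ 0 →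
      (∀ i, Fintype.card (K i →+* L) = 2 * finrank ℚ (maximalRealSubfield (K i))) →
      ∀ (v : (Σ i, (K i →+* L)) → ℤ) (l : I → ℤ), (∀ x, v x = 1 ∨ v x = -1) →
        (∀ x, v (inj x) = -v x) →
        (∀ x, ((M.map Prod.snd).count x : ℤ) - ((M.map Prod.snd).count (inj x) : ℤ) =
          l x.1 * v x) →
        (∀ i, l i ≠ 0 → WeilSlopes p (π i) m) → ∀ x : Σ i, (K i →+* L), l x.1 = 0)
    (x : ExteriorAlgebra Ω V) (hx : x ∈ ⋀[Ω]^(2 * r) V)
    (hFx : ExteriorAlgebra.map (F ^ s) x = (((p : Ω) ^ m) ^ r) ^ s • x) :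
    x ∈ Algebra.adjoin Ω
      {y : ExteriorAlgebra Ω V | y ∈ ⋀[Ω]^2 V ∧ ExteriorAlgebra.map F y = (p : Ω) ^ m • y} := by
  classical
  cases nonempty_fintype I
  have hp : p.Prime := Fact.out
  have hq : (0 : ℚ) < (p : ℚ) ^ m := pow_pos (by exact_mod_cast hp.pos) _
  obtain ⟨L, hL1, hL2, j, h⟩ := exists_galois K
  let e : L →ₐ[ℚ] PadicAlgCl p := IsAlgClosed.lift
  let jΩ : L →ₐ[ℚ] Ω := IsAlgClosed.lift
  let X := Σ i, (K i →+* L)
  let val : X → Ω := fun x => jΩ (x.2 (π x.1))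
  have hspan : Submodule.span Ω {v : V | ∃ x, F v = val x • v} = ⊤ := by
    rw [← hF]
    congr 1
    ext v
    constructor
    · rintro ⟨⟨i, φ⟩, hv⟩
      exact ⟨i, (jΩ : L →+* Ω).comp φ, hv⟩
    · rintro ⟨i, σ, hv⟩
      obtain ⟨φ, rfl⟩ := exists_lift j (h i) jΩ σ
      exact ⟨⟨i, φ⟩, hv⟩
  have hcast : (((p : ℚ) ^ m : ℚ) : L) = (p : L) ^ m := by push_cast; rfl
  have hvalinj : ∀ x : X, val x * val (inj x) = (p : Ω) ^ m := by
    rintro ⟨i, φ⟩
    change jΩ (φ (π i)) * jΩ (cbar φ (π i)) = _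
    rw [← map_mul, weil_cbar hq (hweil i), mul_div_cancel₀ _
      ((map_ne_zero φ).2 (weil_ne hq (hweil i))), hcast, map_pow, map_natCast]
  have hcardi : ∀ i, Fintype.card (K i →+* L) = 2 * finrank ℚ (maximalRealSubfield (K i)) := by
    intro i
    have h0 : finrank (maximalRealSubfield (K i)) (K i) = 2 :=
      Algebra.IsQuadraticExtension.finrank_eq_two _ _
    rw [card_emb j (h i), ← finrank_mul_finrank ℚ (maximalRealSubfield (K i)) (K i),
      h0, mul_comm]
  refine mem_of_lists F val hspan (2 * r) s _ _ ?_ x hx hFx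
  intro M hMlen hM hMprod
  by_cases hM0 : (M.map (fun e => ExteriorAlgebra.ι Ω e.1)).prod = 0
  · rw [hM0]
    exact Subalgebra.zero_mem _
  have hrelM := rel_of_list p ((p : ℚ) ^ m) hq π hweil e (M.map Prod.snd) r s hs
    (by rw [List.length_map, hMlen]) (by
      apply jΩ.injective
      change jΩ _ = jΩ _
      rw [map_pow, map_list_prod, List.map_map, List.map_map, hcast]
      simp only [map_pow, map_natCast]
      exact hMprod)
  obtain ⟨v, l, hv, hvn, hcl, hW⟩ := rel_structure p m π hint hgen hweil hpair hdeg hflip j h e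
    (fun x => ((M.map Prod.snd).count x : ℤ) - ((M.map Prod.snd).count (inj x) : ℤ))
    (fun x => by rw [inj_inj]; ring) hrelM
  have hl0 := hno L hL1 hL2 jΩ inferInstance M hMlen hM hM0 hcardi v l hv hvn hcl
    (fun i hi => (hW i hi).1)
  refine list_mem _ (fun e => F e.1 = val e.2 • e.1) inj inj_inj ?_ Sigma.fst (fun _ => rfl) v hv
    hvn ?_ M.length M rfl hM (fun _ => 0) ?_ (fun i ε hε h0 => absurd rfl h0)
  · rintro ⟨a, φ⟩ h'
    exact cbar_ne φ (eq_of_heq (Sigma.mk.inj_iff.1 h').2)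
  · intro e₁ e₂ h1 h2 h3
    refine Algebra.subset_adjoin ?_
    exact iota_mul_mem_deg2 F _ _ _ _ _ h1 h2 (by rw [h3]; exact hvalinj e₁.2)
  · intro y
    rw [hcl y, hl0 y]

theorem sum_count_eq {X : Type*} [Fintype X] [DecidableEq X] (xs : List X) :
    ∑ x, (xs.count x : ℤ) = xs.length := by
  have h1 := Finset.sum_list_map_count xs (fun _ => (1 : ℤ))
  rw [List.map_const', List.sum_replicate, nsmul_eq_mul, mul_one] at h1
  rw [h1]
  symm
  simp only [nsmul_eq_mul, mul_one]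
  refine Finset.sum_subset (Finset.subset_univ _) fun y _ hy => ?_
  rw [List.mem_toFinset] at hy
  rw [List.count_eq_zero_of_not_mem hy]
  rfl

/-- **Low degrees.** -/
theorem low_degree [Finite I] (m : ℕ) (π : ∀ i, K i) (hint : ∀ i, IsIntegral ℤ (π i))
    (hgen : ∀ i, ∀ s : ℕ, 0 < s → IntermediateField.adjoin ℚ {π i ^ s} = ⊤)
    (hweil : ∀ i, ∀ φ : K i →+* ℂ, ‖φ (π i)‖ ^ 2 = (((p : ℚ) ^ m : ℚ) : ℝ))
    (hpair : ∀ i, PairTransitive (maximalRealSubfield (K i)))
    (hdeg : ∀ i, Odd (finrank ℚ (maximalRealSubfield (K i))) ∨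
      (finrank ℚ (maximalRealSubfield (K i)) - 1).Prime ∨
        TripleTransitive (maximalRealSubfield (K i)))
    (hflip : ∀ x y : Σ i, (K i →+* ℂ), y.1 ≠ x.1 → Flipped x y)
    {Ω : Type*} [Field Ω] [IsAlgClosed Ω] [CharZero Ω]
    {V : Type*} [AddCommGroup V] [Module Ω V] (F : V →ₗ[Ω] V)
    (hF : Submodule.span Ω {v : V | ∃ i, ∃ σ : K i →+* Ω, F v = σ (π i) • v} = ⊤)
    (r s : ℕ) (hs : 0 < s)
    (hr : ∀ i, WeilSlopes p (π i) m → 2 * r < finrank ℚ (maximalRealSubfield (K i)))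
    (x : ExteriorAlgebra Ω V) (hx : x ∈ ⋀[Ω]^(2 * r) V)
    (hFx : ExteriorAlgebra.map (F ^ s) x = (((p : Ω) ^ m) ^ r) ^ s • x) :
    x ∈ Algebra.adjoin Ω
      {y : ExteriorAlgebra Ω V | y ∈ ⋀[Ω]^2 V ∧ ExteriorAlgebra.map F y = (p : Ω) ^ m • y} := by
  refine mem_deg2_of p m π hint hgen hweil hpair hdeg hflip F hF r s hs ?_ x hx hFx
  intro L _ _ jΩ _ M hMlen hM hM0 hcard v l hv hvn hcl hW
  rintro ⟨i, φ₀⟩
  by_contra hl
  change l i ≠ 0 at hl
  have h2r := hr i (hW i hl)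
  classical
  have h1 : ∀ φ : K i →+* L, 1 ≤ ((M.map Prod.snd).count (⟨i, φ⟩ : Σ i, (K i →+* L)) : ℤ) +
      ((M.map Prod.snd).count (⟨i, cbar φ⟩ : Σ i, (K i →+* L)) : ℤ) := by
    intro φ
    have h2 := hcl ⟨i, φ⟩
    have h3 : (inj ⟨i, φ⟩ : Σ i, (K i →+* L)) = ⟨i, cbar φ⟩ := rfl
    rw [h3] at h2
    rcases hv ⟨i, φ⟩ with h4 | h4 <;> rw [h4] at h2 <;> change _ = l i * _ at h2 <;> omega
  have h2 : (2 * finrank ℚ (maximalRealSubfield (K i)) : ℤ) ≤ ∑ φ : K i →+* L,
      (((M.map Prod.snd).count (⟨i, φ⟩ : Σ i, (K i →+* L)) : ℤ) +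
      ((M.map Prod.snd).count (⟨i, cbar φ⟩ : Σ i, (K i →+* L)) : ℤ)) := by
    have h3 := Finset.sum_le_sum (fun φ (_ : φ ∈ (Finset.univ : Finset (K i →+* L))) => h1 φ)
    rw [Finset.sum_const, Finset.card_univ, hcard i, nsmul_eq_mul, mul_one] at h3
    exact_mod_cast h3
  have h3 : ∑ φ : K i →+* L, ((M.map Prod.snd).count (⟨i, cbar φ⟩ : Σ i, (K i →+* L)) : ℤ) =
      ∑ φ : K i →+* L, ((M.map Prod.snd).count (⟨i, φ⟩ : Σ i, (K i →+* L)) : ℤ) :=
    Finset.sum_nbij' cbar cbar (fun _ _ => Finset.mem_univ _) (fun _ _ => Finset.mem_univ _)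
      (fun φ _ => cbar_cbar φ) (fun φ _ => cbar_cbar φ) (fun φ _ => rfl)
  rw [Finset.sum_add_distrib, h3] at h2
  have h4 : ∑ φ : K i →+* L, ((M.map Prod.snd).count (⟨i, φ⟩ : Σ i, (K i →+* L)) : ℤ) ≤
      2 * r := by
    have h6 : ∑ φ : K i →+* L, (((M.map Prod.snd).filter (fun x => decide (x.1 = i))).count
        (⟨i, φ⟩ : Σ i, (K i →+* L)) : ℤ) ≤ 2 * r := by
      have h7 : Function.Injective (fun φ : K i →+* L => (⟨i, φ⟩ : Σ i, (K i →+* L))) := by
        intro a b hab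
        exact eq_of_heq (Sigma.mk.inj_iff.1 hab).2
      have h8 : ∑ φ : K i →+* L, (((M.map Prod.snd).filter (fun x => decide (x.1 = i))).count
          (⟨i, φ⟩ : Σ i, (K i →+* L)) : ℤ) =
          ∑ x ∈ Finset.univ.map ⟨_, h7⟩,
            (((M.map Prod.snd).filter (fun x => decide (x.1 = i))).count x : ℤ) := by
        rw [Finset.sum_map]
        rfl
      rw [h8]
      have h9 : ∑ x ∈ Finset.univ.map ⟨_, h7⟩,
          (((M.map Prod.snd).filter (fun x => decide (x.1 = i))).count x : ℤ) ≤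
          ∑ x ∈ ((M.map Prod.snd).filter (fun x => decide (x.1 = i))).toFinset ∪
            Finset.univ.map ⟨_, h7⟩,
            (((M.map Prod.snd).filter (fun x => decide (x.1 = i))).count x : ℤ) :=
        Finset.sum_le_sum_of_subset_of_nonneg Finset.subset_union_right
          (fun _ _ _ => by positivity)
      refine h9.trans ?_
      have h10 : ∑ x ∈ ((M.map Prod.snd).filter (fun x => decide (x.1 = i))).toFinset ∪
            Finset.univ.map ⟨_, h7⟩,
            (((M.map Prod.snd).filter (fun x => decide (x.1 = i))).count x : ℤ) =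
          ∑ x ∈ ((M.map Prod.snd).filter (fun x => decide (x.1 = i))).toFinset,
            (((M.map Prod.snd).filter (fun x => decide (x.1 = i))).count x : ℤ) := by
        symm
        refine Finset.sum_subset Finset.subset_union_left fun y _ hy => ?_
        rw [List.mem_toFinset] at hy
        rw [List.count_eq_zero_of_not_mem hy]
        rfl
      rw [h10]
      have h11 := Finset.sum_list_map_count
        ((M.map Prod.snd).filter (fun x => decide (x.1 = i))) (fun _ => (1 : ℤ))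
      rw [List.map_const', List.sum_replicate, nsmul_eq_mul, mul_one] at h11
      simp only [nsmul_eq_mul, mul_one] at h11
      rw [← h11]
      have h12 := List.length_filter_le (fun x : Σ i, (K i →+* L) => decide (x.1 = i))
        (M.map Prod.snd)
      rw [List.length_map, hMlen] at h12
      exact_mod_cast h12
    refine le_trans (le_of_eq ?_) h6
    refine Finset.sum_congr rfl fun φ _ => ?_
    rw [List.count_filter (by simp)]
  omega

/-- **All degrees except the middle one, for simple spectra.** -/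
theorem simple_spectrum {F₀ : Type*} [Field F₀] [NumberField F₀] [IsCMField F₀] (m : ℕ) (π : F₀)
    (hint : IsIntegral ℤ π)
    (hgen : ∀ s : ℕ, 0 < s → IntermediateField.adjoin ℚ {π ^ s} = ⊤)
    (hweil : ∀ φ : F₀ →+* ℂ, ‖φ π‖ ^ 2 = (((p : ℚ) ^ m : ℚ) : ℝ))
    (hpair : PairTransitive (maximalRealSubfield F₀))
    (hdeg : Odd (finrank ℚ (maximalRealSubfield F₀)) ∨
      (finrank ℚ (maximalRealSubfield F₀) - 1).Prime ∨
        TripleTransitive (maximalRealSubfield F₀))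
    {Ω : Type*} [Field Ω] [IsAlgClosed Ω] [CharZero Ω]
    {V : Type*} [AddCommGroup V] [Module Ω V] (F : V →ₗ[Ω] V)
    (hF : Submodule.span Ω {v : V | ∃ σ : F₀ →+* Ω, F v = σ π • v} = ⊤)
    (hmult : ∀ (σ : F₀ →+* Ω) (v w : V), F v = σ π • v → F w = σ π • w → v ≠ 0 →
      ∃ b : Ω, w = b • v)
    (r s : ℕ) (hs : 0 < s)
    (hr : WeilSlopes p π m → 2 * r ≠ finrank ℚ (maximalRealSubfield F₀))
    (x : ExteriorAlgebra Ω V) (hx : x ∈ ⋀[Ω]^(2 * r) V)
    (hFx : ExteriorAlgebra.map (F ^ s) x = (((p : Ω) ^ m) ^ r) ^ s • x) :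
    x ∈ Algebra.adjoin Ω
      {y : ExteriorAlgebra Ω V | y ∈ ⋀[Ω]^2 V ∧ ExteriorAlgebra.map F y = (p : Ω) ^ m • y} := by
  refine mem_deg2_of (I := Unit) (K := fun _ => F₀) p m (fun _ => π) (fun _ => hint)
    (fun _ => hgen) (fun _ => hweil) (fun _ => hpair) (fun _ => hdeg)
    (fun x y h => absurd rfl h) F (by
      rw [← hF]
      congr 1
      ext v
      constructor
      · rintro ⟨_, h⟩
        exact h
      · intro h
        exact ⟨(), h⟩) r s hs ?_ x hx hFx
  intro L _ _ jΩ _ M hMlen hM hM0 hcard v l hv hvn hcl hW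
  rintro ⟨⟨⟩, φ₀⟩
  by_contra hl
  change l () ≠ 0 at hl
  apply hr (hW () hl)
  classical
  have hnd : (M.map Prod.snd).Nodup := by
    by_contra h
    obtain ⟨a, b, M', hperm, hab⟩ := exists_perm_of_not_nodup M h
    apply hM0
    obtain ⟨c, hc⟩ := prod_perm (K := Ω) hperm
    rw [hc, List.map_cons, List.map_cons, List.prod_cons, List.prod_cons, ← mul_assoc]
    have ha := hM a (hperm.mem_iff.2 (by simp))
    have hb := hM b (hperm.mem_iff.2 (by simp))
    rw [← hab] at hb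
    by_cases ha0 : a.1 = 0
    · rw [ha0, map_zero, zero_mul, zero_mul, smul_zero]
    · obtain ⟨d, hd⟩ := hmult ((jΩ : L →+* Ω).comp a.2.2) a.1 b.1 ha hb ha0
      rw [hd, map_smul, mul_smul_comm, ExteriorAlgebra.ι_sq_zero, smul_zero, zero_mul, smul_zero]
  have h1 : ∀ y : Σ _ : Unit, (F₀ →+* L), ((M.map Prod.snd).count y : ℤ) +
      ((M.map Prod.snd).count (inj (E := fun _ : Unit => F₀) y) : ℤ) = 1 := by
    intro y
    have h2 := hcl y
    have h3 := List.nodup_iff_count_le_one.1 hnd y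
    have h4 := List.nodup_iff_count_le_one.1 hnd (inj (E := fun _ : Unit => F₀) y)
    rcases hv y with h5 | h5 <;> rw [h5] at h2 <;> change _ = l () * _ at h2 <;> omega
  have h2 := Finset.sum_congr rfl (fun y (_ : y ∈ (Finset.univ : Finset (Σ _ : Unit, (F₀ →+* L)))) => h1 y)
  rw [Finset.sum_add_distrib] at h2
  have h3 : ∑ y : Σ _ : Unit, (F₀ →+* L),
      ((M.map Prod.snd).count (inj (E := fun _ : Unit => F₀) y) : ℤ) =
      ∑ y : Σ _ : Unit, (F₀ →+* L), ((M.map Prod.snd).count y : ℤ) :=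
    Finset.sum_nbij' inj inj (fun _ _ => Finset.mem_univ _) (fun _ _ => Finset.mem_univ _)
      (fun y _ => inj_inj y) (fun y _ => inj_inj y) (fun y _ => rfl)
  rw [h3, sum_count_eq, List.length_map, hMlen, Finset.sum_const, Finset.card_univ, nsmul_eq_mul,
    mul_one, Fintype.card_sigma, Finset.univ_unique, Finset.sum_singleton, hcard ()] at h2
  push_cast at h2
  omega

end Pool.Agent.H194R3.Weil
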